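import Pool.Agent.L0h94.SP.StmA
import Pool.Agent.N862.PF.TV

/-!
# Project SP: distinguished vectors modulo `𝔮` and local squares (module TVI)

After `Pool/Agent/N862/PF/TV.lean` (helper862).
-/

set_option autoImplicit false
set_option linter.all false

open Polynomial IsDedekindDomain Matrix NumberField WithZero
open scoped Classical

namespace Pool.Agent.L0h19.SP

open Pool.Agent.N783.PF Pool.Agent.N862.PF Pool.Agent.L0h94.SP
open Pool.Agent.N874.PP (Ev Sq1 U0)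

/-- Local squares give a distinguished vector (compare `tv`). -/
theorem fwd (hI : S_INT) (g : ℕ) (F L : Type) [Field F] [NumberField F] [Field L] [NumberField L]
    [Algebra F L] (f : (𝓞 F)[X]) (θ : L) (hG : IsGen g f θ) (hsq : SqF g f) (α : L)
    (Λ : Submodule (𝓞 F) L) (hα : α ≠ 0) (hSD : SDn α Λ)
    (𝔮 : Ideal (𝓞 F)) (hprime : 𝔮.IsPrime) (hq0 : 𝔮 ≠ ⊥) (hsep : (rd 𝔮 f).Separable)
    (hSq : ∀ 𝔓 : HeightOneSpectrum (𝓞 L), Ov 𝔮 𝔓 → Sq1 𝔓 α) : DVec hG α Λ 𝔮 := by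
  have hint := hI g F L f θ hG hsq
  obtain ⟨t, ht⟩ := theta_ex hG
  have hfin := fin_ov (L := L) hq0
  set T : Finset (HeightOneSpectrum (𝓞 L)) := hfin.toFinset with hT
  have hTm : ∀ 𝔓 : HeightOneSpectrum (𝓞 L), 𝔓 ∈ T ↔ Ov 𝔮 𝔓 := fun 𝔓 => by
    rw [hT, Set.Finite.mem_toFinset]; rfl
  have hB : ∀ 𝔓 : HeightOneSpectrum (𝓞 L), ∃ (x : L) (u : 𝓞 L), 𝔓 ∈ T → (x ∈ Λ ∧
      algebraMap (𝓞 L) L u = x * x / α ∧
      u - 1 ∈ 𝔓.asIdeal ∧ ∀ 𝔓' ∈ T, 𝔓' ≠ 𝔓 → u ∈ 𝔓'.asIdeal) := by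
    intro 𝔓
    by_cases h : 𝔓 ∈ T
    · obtain ⟨x, u, h1⟩ := stepB hα hSD (hSq 𝔓 ((hTm _).1 h)) T
      exact ⟨x, u, fun _ => h1⟩
    · exact ⟨0, 0, fun h' => absurd h' h⟩
  choose x u hxu using hB
  obtain ⟨y, hydef⟩ : ∃ y : L, y = ∑ 𝔓 ∈ T, x 𝔓 := ⟨_, rfl⟩
  have hyΛ : y ∈ Λ := by
    rw [hydef]
    exact Submodule.sum_mem _ fun 𝔓 h => (hxu 𝔓 h).1
  -- the products
  have hW : ∀ 𝔓 𝔓' : HeightOneSpectrum (𝓞 L), ∃ w : 𝓞 L, 𝔓 ∈ T → 𝔓' ∈ T →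
      algebraMap (𝓞 L) L w = x 𝔓 * x 𝔓' / α := by
    intro 𝔓 𝔓'
    by_cases h : 𝔓 ∈ T
    · by_cases h' : 𝔓' ∈ T
      · obtain ⟨w, hw⟩ := (int_iff _).1 (prod_int hSD (hxu 𝔓 h).1 (hxu 𝔓' h').1)
        exact ⟨w, fun _ _ => hw⟩
      · exact ⟨0, fun _ h2 => absurd h2 h'⟩
    · exact ⟨0, fun h1 => absurd h1 h⟩
  choose w hw using hW
  have hinj : Function.Injective (algebraMap (𝓞 L) L) := IsFractionRing.injective (𝓞 L) L
  have hwsq : ∀ 𝔓 ∈ T, ∀ 𝔓' ∈ T, w 𝔓 𝔓' ^ 2 = u 𝔓 * u 𝔓' := by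
    intro 𝔓 h 𝔓' h'
    apply hinj
    rw [map_pow, map_mul, hw 𝔓 𝔓' h h', (hxu 𝔓 h).2.1, (hxu 𝔓' h').2.1]
    ring
  have hwd : ∀ 𝔓 ∈ T, w 𝔓 𝔓 = u 𝔓 := by
    intro 𝔓 h
    apply hinj
    rw [hw 𝔓 𝔓 h h, (hxu 𝔓 h).2.1]
  obtain ⟨z, hz⟩ : ∃ z : 𝓞 L, z = ∑ 𝔓 ∈ T, ∑ 𝔓' ∈ T, w 𝔓 𝔓' := ⟨_, rfl⟩
  have hzL : algebraMap (𝓞 L) L z = y ^ 2 / α := by
    rw [hz, map_sum, hydef, sq, Finset.sum_mul, Finset.sum_div]
    refine Finset.sum_congr rfl fun 𝔓 h => ?_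
    rw [map_sum, Finset.mul_sum, Finset.sum_div]
    exact Finset.sum_congr rfl fun 𝔓' h' => hw 𝔓 𝔓' h h'
  have hmemw : ∀ 𝔓₀ ∈ T, ∀ 𝔓 ∈ T, ∀ 𝔓' ∈ T, (𝔓 ≠ 𝔓₀ ∨ 𝔓' ≠ 𝔓₀) → w 𝔓 𝔓' ∈ 𝔓₀.asIdeal := by
    intro 𝔓₀ h0 𝔓 h 𝔓' h' hor
    apply 𝔓₀.isPrime.mem_of_pow_mem 2
    rw [hwsq 𝔓 h 𝔓' h']
    rcases hor with h1 | h1
    · exact 𝔓₀.asIdeal.mul_mem_right _ ((hxu 𝔓 h).2.2.2 𝔓₀ h0 h1.symm)
    · exact 𝔓₀.asIdeal.mul_mem_left _ ((hxu 𝔓' h').2.2.2 𝔓₀ h0 h1.symm)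
  have hz1 : ∀ 𝔓 : HeightOneSpectrum (𝓞 L), Ov 𝔮 𝔓 → z - 1 ∈ 𝔓.asIdeal := by
    intro 𝔓₀ hov
    have h0 : 𝔓₀ ∈ T := (hTm _).2 hov
    have e1 : z - 1 = (u 𝔓₀ - 1) + (∑ 𝔓' ∈ T.erase 𝔓₀, w 𝔓₀ 𝔓' +
        ∑ 𝔓 ∈ T.erase 𝔓₀, ∑ 𝔓' ∈ T, w 𝔓 𝔓') := by
      rw [hz, ← Finset.add_sum_erase _ _ h0, ← Finset.add_sum_erase _ (fun 𝔓' => w 𝔓₀ 𝔓') h0,
        hwd 𝔓₀ h0]
      ring
    rw [e1]
    refine 𝔓₀.asIdeal.add_mem (hxu 𝔓₀ h0).2.2.1 (𝔓₀.asIdeal.add_mem ?_ ?_)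
    · refine Ideal.sum_mem _ fun 𝔓' h' => ?_
      exact hmemw 𝔓₀ h0 𝔓₀ h0 𝔓' (Finset.mem_of_mem_erase h') (Or.inr (Finset.ne_of_mem_erase h'))
    · refine Ideal.sum_mem _ fun 𝔓 h => ?_
      refine Ideal.sum_mem _ fun 𝔓' h' => ?_
      exact hmemw 𝔓₀ h0 𝔓 (Finset.mem_of_mem_erase h) 𝔓' h' (Or.inl (Finset.ne_of_mem_erase h))
  obtain ⟨p, hp1, hp2⟩ := ex_poly hI hG hsq ht (z - 1)
  haveI : 𝔮.IsPrime := hprime
  haveI hmax : 𝔮.IsMaximal := hprime.isMaximal hq0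
  letI : Field (𝓞 F ⧸ 𝔮) := Ideal.Quotient.field 𝔮
  have hzero : p.map (Ideal.Quotient.mk 𝔮) = 0 := by
    refine key hI hG hsq ht hq0 (Ideal.Quotient.mk 𝔮)
      (fun a ha => Ideal.Quotient.eq_zero_iff_mem.2 ha) hsep p hp1 fun 𝔓 hov => ?_
    rw [hp2]
    exact hz1 𝔓 hov
  have hcoef : ∀ i, p.coeff i ∈ 𝔮 := by
    intro i
    have h1 := congrArg (fun r => coeff r i) hzero
    simp only [coeff_map, coeff_zero] at h1
    exact Ideal.Quotient.eq_zero_iff_mem.1 h1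
  refine ⟨y, hyΛ, 1, fun h1 => hprime.ne_top ((Ideal.eq_top_iff_one _).2 h1), fun m hm => ?_⟩
  -- the coefficients
  have hV : ∀ i : ℕ, ∃ b : 𝓞 F, (b : F) = hG.top (θ ^ (i + m)) := by
    intro i
    have h1 := top_int hG hint ((theta_int hG).pow (i + m))
    exact ⟨⟨_, h1⟩, rfl⟩
  choose b hb using hV
  refine ⟨∑ i ∈ Finset.range (2 * g + 1), p.coeff i * b i,
    Ideal.sum_mem _ fun i _ => 𝔮.mul_mem_right _ (hcoef i), ?_⟩
  have h3 : θ ^ m * y ^ 2 / α = θ ^ m + ∑ i ∈ Finset.range (2 * g + 1),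
      ((p.coeff i : 𝓞 F) : F) • θ ^ (i + m) := by
    have h4 : θ ^ m * y ^ 2 / α = θ ^ m * algebraMap (𝓞 L) L z := by
      rw [hzL]; ring
    have h5 : z = 1 + ev F t p := by rw [hp2]; ring
    rw [h4, h5, map_add, map_one, mul_add, mul_one, ev_L ht]
    congr 1
    rw [aeval_def, eval₂_eq_sum_range' (algebraMap (𝓞 F) L) (n := 2 * g + 1), Finset.mul_sum]
    · refine Finset.sum_congr rfl fun i _ => ?_
      rw [Algebra.smul_def, IsScalarTower.algebraMap_apply (𝓞 F) F L, pow_add]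
      ring
    · by_cases hr0 : p = 0
      · rw [hr0]; simp
      · exact (natDegree_lt_iff_degree_lt hr0).2 hp1
  rw [h3, map_add, map_sum, top_pow hG m hm]
  have h6 : ((∑ i ∈ Finset.range (2 * g + 1), p.coeff i * b i : 𝓞 F) : F) =
      ∑ i ∈ Finset.range (2 * g + 1), hG.top (((p.coeff i : 𝓞 F) : F) • θ ^ (i + m)) := by
    have h7 : ((∑ i ∈ Finset.range (2 * g + 1), p.coeff i * b i : 𝓞 F) : F) =
        algebraMap (𝓞 F) F (∑ i ∈ Finset.range (2 * g + 1), p.coeff i * b i) := rfl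
    rw [h7, map_sum]
    refine Finset.sum_congr rfl fun i _ => ?_
    rw [map_mul, map_smul, smul_eq_mul, ← hb i]
  rw [h6]
  split_ifs <;> simp

/-- A distinguished vector gives local squares. -/
theorem bwd (hI : S_INT) (g : ℕ) (F L : Type) [Field F] [NumberField F] [Field L] [NumberField L]
    [Algebra F L] (f : (𝓞 F)[X]) (θ : L) (hG : IsGen g f θ) (hsq : SqF g f) (α : L)
    (Λ : Submodule (𝓞 F) L) (hα : α ≠ 0) (hSD : SDn α Λ)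
    (𝔮 : Ideal (𝓞 F)) (hprime : 𝔮.IsPrime) (hq0 : 𝔮 ≠ ⊥) (hD : DVec hG α Λ 𝔮)
    (𝔓 : HeightOneSpectrum (𝓞 L)) (hov : Ov 𝔮 𝔓) : Sq1 𝔓 α := by
  have hint := hI g F L f θ hG hsq
  obtain ⟨x, hx, s, hs, hcond⟩ := hD
  have hmax : 𝔮.IsMaximal := hprime.isMaximal hq0
  -- `s` is a unit at `𝔓`
  have hsP : algebraMap (𝓞 F) (𝓞 L) s ∉ 𝔓.asIdeal := by
    intro h1
    obtain ⟨c, i, hi, hci⟩ := hmax.exists_inv hs
    apply 𝔓.isPrime.ne_top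
    rw [Ideal.eq_top_iff_one]
    have h2 : (1 : 𝓞 L) = algebraMap (𝓞 F) (𝓞 L) c * algebraMap (𝓞 F) (𝓞 L) s +
        algebraMap (𝓞 F) (𝓞 L) i := by
      rw [← map_mul, ← map_add, hci, map_one]
    rw [h2]
    exact 𝔓.asIdeal.add_mem (𝔓.asIdeal.mul_mem_left _ h1) (hov i hi)
  obtain ⟨u, hu⟩ := (int_iff (x ^ 2 / α)).1 ((hSD x).1 hx)
  obtain ⟨z, hz⟩ : ∃ z : 𝓞 L, z = u - algebraMap (𝓞 F) (𝓞 L) (s ^ 2) := ⟨_, rfl⟩
  have hzL : algebraMap (𝓞 L) L z = x ^ 2 / α - algebraMap F L ((s : F) ^ 2) := by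
    rw [hz, map_sub, hu]
    congr 1
  obtain ⟨v, hv⟩ := (hint _).1 ((int_iff (algebraMap (𝓞 L) L z)).2 ⟨z, rfl⟩)
  -- the moments of `z`
  have hmom : ∀ m ≤ 2 * g, ∃ a ∈ 𝔮, (a : F) = hG.top (θ ^ m * algebraMap (𝓞 L) L z) := by
    intro m hm
    obtain ⟨a, ha, ha1⟩ := hcond m hm
    refine ⟨a, ha, ?_⟩
    have h1 : θ ^ m * algebraMap (𝓞 L) L z = θ ^ m * x ^ 2 / α - ((s : F) ^ 2) • θ ^ m := by
      rw [hzL, Algebra.smul_def]
      ring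
    rw [h1, map_sub, map_smul, top_pow hG m hm, ha1, smul_eq_mul]
    split_ifs <;> simp
  have hV : ∀ i : ℕ, ∃ b : 𝓞 F, (b : F) = hG.top (θ ^ i) := by
    intro i
    have h1 := top_int hG hint ((theta_int hG).pow i)
    exact ⟨⟨_, h1⟩, rfl⟩
  choose b hb using hV
  have hvq : ∀ m : ℕ, ∀ i : Fin (2 * g + 1), (i : ℕ) + m = 2 * g → v i ∈ 𝔮 := by
    intro m
    induction m using Nat.strong_induction_on with
    | _ m ih =>
      intro i him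
      obtain ⟨a, ha, ha1⟩ := hmom m (by omega)
      have h1 : (a : F) = ((∑ l : Fin (2 * g + 1), v l * b (l + m) : 𝓞 F) : F) := by
        have h7 : ((∑ l : Fin (2 * g + 1), v l * b (l + m) : 𝓞 F) : F) =
            algebraMap (𝓞 F) F (∑ l : Fin (2 * g + 1), v l * b (l + m)) := rfl
        rw [ha1, hv, Finset.mul_sum, map_sum, h7, map_sum]
        refine Finset.sum_congr rfl fun l _ => ?_
        rw [map_mul (algebraMap (𝓞 F) F)]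
        have h8 : θ ^ m * (algebraMap F L (v l : F) * θ ^ (l : ℕ)) = (v l : F) • θ ^ ((l : ℕ) + m) := by
          rw [Algebra.smul_def, pow_add]
          ring
        rw [h8, map_smul, smul_eq_mul, ← hb]
      have h2 : a = ∑ l : Fin (2 * g + 1), v l * b (l + m) := by
        apply FaithfulSMul.algebraMap_injective (𝓞 F) F
        exact h1
      rw [← Finset.add_sum_erase _ _ (Finset.mem_univ i)] at h2
      have hbi : b (i + m) = 1 := by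
        apply FaithfulSMul.algebraMap_injective (𝓞 F) F
        have h9 := hb ((i : ℕ) + m)
        rw [him, top_pow hG _ le_rfl, if_pos rfl] at h9
        rw [him, map_one]
        exact h9
      rw [hbi, mul_one] at h2
      have h3 : ∑ l ∈ Finset.univ.erase i, v l * b (l + m) ∈ 𝔮 := by
        refine Ideal.sum_mem _ fun l hl => ?_
        have hli : l ≠ i := (Finset.mem_erase.mp hl).1
        have hli' : (l : ℕ) ≠ i := fun hh => hli (Fin.ext hh)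
        rcases lt_or_gt_of_ne hli' with hlt | hgt
        · have h10 : b (l + m) = 0 := by
            apply FaithfulSMul.algebraMap_injective (𝓞 F) F
            have h9 := hb ((l : ℕ) + m)
            rw [top_pow hG _ (by omega), if_neg (by omega)] at h9
            rw [map_zero]
            exact h9
          rw [h10, mul_zero]
          exact 𝔮.zero_mem
        · exact 𝔮.mul_mem_right _ (ih (2 * g - l) (by omega) l (by omega))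
      have h4 : v i = a - ∑ l ∈ Finset.univ.erase i, v l * b (l + m) := by
        rw [h2]; ring
      rw [h4]
      exact 𝔮.sub_mem ha h3
  have hzP : z ∈ 𝔓.asIdeal := by
    obtain ⟨t, ht⟩ := theta_ex hG
    have h1 : z = ∑ i : Fin (2 * g + 1), algebraMap (𝓞 F) (𝓞 L) (v i) * t ^ (i : ℕ) := by
      apply IsFractionRing.injective (𝓞 L) L
      rw [hv, map_sum]
      refine Finset.sum_congr rfl fun i _ => ?_
      rw [map_mul, map_pow, ht, ← IsScalarTower.algebraMap_apply (𝓞 F) (𝓞 L) L,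
        IsScalarTower.algebraMap_apply (𝓞 F) F L]
    rw [h1]
    refine Ideal.sum_mem _ fun i _ => 𝔓.asIdeal.mul_mem_right _ (hov _ ?_)
    exact hvq (2 * g - i) i (by omega)
  -- the square
  have hs0 : algebraMap (𝓞 F) (𝓞 L) s ≠ 0 := fun h => hsP (h ▸ 𝔓.asIdeal.zero_mem)
  have hsL0 : algebraMap F L (s : F) ≠ 0 := by
    intro h
    apply hs0
    apply IsFractionRing.injective (𝓞 L) L
    rw [map_zero, ← IsScalarTower.algebraMap_apply (𝓞 F) (𝓞 L) L,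
      IsScalarTower.algebraMap_apply (𝓞 F) F L]
    exact h
  have hvs : 𝔓.valuation L (algebraMap F L (s : F)) = 1 := by
    have h1 : algebraMap F L (s : F) = algebraMap (𝓞 L) L (algebraMap (𝓞 F) (𝓞 L) s) := by
      rw [← IsScalarTower.algebraMap_apply (𝓞 F) (𝓞 L) L,
        IsScalarTower.algebraMap_apply (𝓞 F) F L]
    rw [h1]
    apply le_antisymm (𝔓.valuation_le_one _)
    rw [← not_lt]
    intro h2
    exact hsP ((𝔓.valuation_lt_one_iff_mem (K := L) _).1 h2)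
  have hvz : 𝔓.valuation L (algebraMap (𝓞 L) L z) < 1 :=
    (𝔓.valuation_lt_one_iff_mem (K := L) _).2 hzP
  have hvα : 𝔓.valuation L α ≠ 0 := (Valuation.ne_zero_iff _).2 hα
  refine ⟨x / algebraMap F L (s : F), ?_⟩
  have h1 : α - (x / algebraMap F L (s : F)) ^ 2 =
      -(α * algebraMap (𝓞 L) L z / (algebraMap F L (s : F)) ^ 2) := by
    rw [hzL, map_pow]
    field_simp
    ring
  rw [h1, Valuation.map_neg, map_div₀, map_mul, map_pow, hvs, one_pow, div_one]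
  calc 𝔓.valuation L α * 𝔓.valuation L (algebraMap (𝓞 L) L z) < 𝔓.valuation L α * 1 := by
        exact mul_lt_mul_of_pos_left hvz (zero_lt_iff.2 hvα)
    _ = 𝔓.valuation L α := mul_one _

/-- **Module TVI.** -/
theorem t_TVI (hI : S_INT) : S_TVI := by
  intro g m F L _ _ _ _ _ f θ hG hsq hm α Λ hα hSD hLat 𝔮 hprime hq0 hmq hsep hev
  exact ⟨fun h => fwd hI g F L f θ hG hsq α Λ hα hSD 𝔮 hprime hq0 hsep h,
    fun h 𝔓 hov => bwd hI g F L f θ hG hsq α Λ hα hSD 𝔮 hprime hq0 h 𝔓 hov⟩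

end Pool.Agent.L0h19.SP
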